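import Pool.Agent.H173R3.ZT.Fam
import Pool.Agent.H173R3.ZT.Count

/-!
# Zilber's conjecture on intersections with tori for translates of arbitrary subvarieties

`Y` is any irreducible closed subvariety of the complex torus, of dimension `d`. For a positive
proportion of the integer vectors `g`, the translate `g Y` has no point at all on an algebraic
subgroup `H` with `dim Y + dim H ≤ n - 1`.
-/

set_option autoImplicit false

namespace Pool.Agent.Results.MP_c95b3b_ag.Translates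

open MvPolynomial Filter

/-- The subvariety of the torus `(ℂ^×)^n` cut out by the ideal `P`. -/
def torusVariety {n : ℕ} (P : Ideal (MvPolynomial (Fin n) ℂ)) : Set (Fin n → ℂ) :=
  {x | (∀ i, x i ≠ 0) ∧ ∀ f ∈ P, eval x f = 0}

/-- The translate of `Y` by the vector `g`. -/
def translate {n : ℕ} (g : Fin n → ℤ) (Y : Set (Fin n → ℂ)) : Set (Fin n → ℂ) :=
  {y | ∃ x ∈ Y, ∀ i, y i = (g i : ℂ) * x i}

/-- For a subset `Y` of the torus and a number `d` (the dimension of `Y`): the points of `Y` which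
lie on an algebraic subgroup `H = {x | x ^ a = 1 for all a in Λ}` with `d + dim H ≤ n - 1`;
the dimension of `H` is `n - rank Λ`. -/
def U {n : ℕ} (d : ℕ) (Y : Set (Fin n → ℂ)) : Set (Fin n → ℂ) :=
  {y | y ∈ Y ∧ ∃ Λ : Submodule ℤ (Fin n → ℤ), d + (n - Module.finrank ℤ Λ) + 1 ≤ n ∧
    ∀ a ∈ Λ, ∏ i, y i ^ a i = 1}

/-- Let `P` be a prime ideal of `ℂ[x_1, ..., x_n]`, `Y` the variety it defines in the torus, of
dimension `d`. There is a positive proportion of integer vectors `g`, `1 ≤ g_i ≤ H`, for which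
`U(g Y)` is empty. -/
theorem result (n d : ℕ) (P : Ideal (MvPolynomial (Fin n) ℂ)) (hP : P.IsPrime)
    (hd : Algebra.trdeg ℂ (MvPolynomial (Fin n) ℂ ⧸ P) = d) :
    ∃ δ : ℝ, 0 < δ ∧ ∀ᶠ H : ℕ in atTop,
      δ * (H : ℝ) ^ n ≤ Nat.card {g : Fin n → ℤ // (∀ j, 1 ≤ g j ∧ g j ≤ H) ∧
        U d (translate g (torusVariety P)) = ∅} := by
  obtain ⟨M, b, hM, hb, h⟩ := H173R3.ZT.exists_class P hd
  refine H173R3.ZT.pos_proportion M hM b hb _ fun g hg => ?_
  rw [Set.eq_empty_iff_forall_notMem]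
  rintro y ⟨⟨x, ⟨hx0, hxP⟩, hyx⟩, Λ, hΛ, hΛ1⟩
  have h1 := h g hg ℂ x hx0 (fun f hf => by
    rw [aeval_eq_eval]
    exact hxP f hf) Λ (fun a ha => ⟨1, one_pos, by
      rw [pow_one]
      have h2 := hΛ1 a ha
      simp only [hyx] at h2
      exact h2⟩)
  omega

end Pool.Agent.Results.MP_c95b3b_ag.Translates
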